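import Pool.Agent.Y757.GM.Stm

set_option autoImplicit false

/-!
# Project GM: from the half discs to the moments (job GM-CR)
-/

namespace Pool.Agent.Y438.GM

open MeasureTheory Set Filter Topology Pool.Agent.Y757.LS Pool.Agent.Y757.EM Pool.Agent.Y757.GM
open scoped ENNReal

theorem Z_nonneg (t : ℝ) : 0 ≤ Z t := by
  unfold Z
  exact norm_nonneg _

theorem Z_continuous : Continuous Z := by
  unfold Z
  refine Continuous.norm (continuous_iff_continuousAt.2 fun t => ?_)
  have hne : (1 / 2 + (t : ℂ) * Complex.I) ≠ 1 := by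
    intro h
    have := congrArg Complex.re h
    norm_num at this
  have h3 : ContinuousAt riemannZeta (1 / 2 + (t : ℂ) * Complex.I) :=
    (differentiableAt_riemannZeta hne).continuousAt
  have h4 : ContinuousAt (fun t : ℝ => 1 / 2 + (t : ℂ) * Complex.I) t := by fun_prop
  exact ContinuousAt.comp (g := riemannZeta) h3 h4

theorem Z_poly : ∃ C : ℝ, 0 < C ∧ ∀ t : ℝ, 1 ≤ t → Z t ≤ C * t := by
  obtain ⟨C, hC, h⟩ := Z_upper
  refine ⟨Real.exp C, Real.exp_pos _, fun t ht => ?_⟩
  have ht0 : 0 < t := by linarith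
  rcases (Z_nonneg t).eq_or_lt with h0 | h0
  · rw [← h0]
    positivity
  · have h1 : Real.exp (Real.log (Z t)) ≤ Real.exp (Real.log t + C) := Real.exp_le_exp.2 (h t ht)
    rw [Real.exp_log h0, Real.exp_add, Real.exp_log ht0] at h1
    linarith

/-- the pointwise inequality -/
theorem point {k : ℕ} {l δ r C C1 z t J : ℝ} (hz : 0 ≤ z) (hl : 0 ≤ l) (hδ : 0 ≤ δ)
    (hk : l + δ = 2 * k) (hC : 0 < C) (hC1 : 0 < C1) (ht : 1 ≤ t)
    (h1 : z ≤ C * t ^ r * Real.exp J) (h2 : z ≤ C1 * t) :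
    z ^ (2 * k) ≤ C ^ l * C1 ^ δ * t ^ (r * l + δ) * Real.exp (l * J) := by
  have ht0 : 0 < t := by linarith
  have e : z ^ (2 * k) = z ^ l * z ^ δ := by
    rw [← Real.rpow_add_of_nonneg hz hl hδ, hk, ← Real.rpow_natCast]
    push_cast
    rfl
  have b1 : z ^ l ≤ C ^ l * t ^ (r * l) * Real.exp (l * J) := by
    refine (Real.rpow_le_rpow hz h1 hl).trans (le_of_eq ?_)
    rw [Real.mul_rpow (by positivity) (by positivity), Real.mul_rpow hC.le (by positivity),
      ← Real.rpow_mul ht0.le, ← Real.exp_mul]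
    congr 2
    ring
  have b2 : z ^ δ ≤ C1 ^ δ * t ^ δ := by
    refine (Real.rpow_le_rpow hz h2 hδ).trans (le_of_eq ?_)
    rw [Real.mul_rpow hC1.le ht0.le]
  rw [e]
  calc z ^ l * z ^ δ ≤ (C ^ l * t ^ (r * l) * Real.exp (l * J)) * (C1 ^ δ * t ^ δ) :=
        mul_le_mul b1 b2 (by positivity) (by positivity)
    _ = _ := by
        rw [Real.rpow_add ht0]
        ring

theorem t_cr : S_cr := by
  intro hpw k hk hyp ε hε
  have hk' : (1:ℝ) ≤ k := by exact_mod_cast hk
  obtain ⟨C1, hC1, hZ1⟩ := Z_poly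
  -- parameters
  obtain ⟨δ, hδ⟩ : ∃ δ : ℝ, δ = min 1 (ε / 4) := ⟨_, rfl⟩
  have hδ0 : 0 < δ := by rw [hδ]; positivity
  have hδ1 : δ ≤ 1 := by rw [hδ]; exact min_le_left _ _
  have hδ2 : δ ≤ ε / 4 := by rw [hδ]; exact min_le_right _ _
  obtain ⟨r, hr⟩ : ∃ r : ℝ, r = min 1 (ε / (8 * k)) := ⟨_, rfl⟩
  have hr0 : 0 < r := by rw [hr]; positivity
  have hr1 : r ≤ 1 := by rw [hr]; exact min_le_left _ _
  have hr2 : r * (8 * k) ≤ ε := by
    rw [← le_div_iff₀ (by positivity), hr]
    exact min_le_right _ _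
  obtain ⟨l, hl⟩ : ∃ l : ℝ, l = 2 * k - δ := ⟨_, rfl⟩
  have hl0 : 0 < l := by rw [hl]; linarith
  have hl2 : l < 2 * k := by rw [hl]; linarith
  obtain ⟨C, hC, hP⟩ := hpw r hr0 hr1
  obtain ⟨A, hA⟩ := hyp l r (ε / 2) hl0 hl2 hr0 hr1 (by positivity)
  have hexp : r * l + δ ≤ ε / 2 := by
    have h1 : r * l ≤ r * (2 * k) := mul_le_mul_of_nonneg_left hl2.le hr0.le
    linarith
  obtain ⟨D, hD⟩ : ∃ D : ℝ, D = C ^ l * C1 ^ δ := ⟨_, rfl⟩
  have hD0 : 0 < D := by rw [hD]; positivity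
  have hcont : Continuous (fun t => Z t ^ (2 * k)) := Z_continuous.pow _
  have hpos : ∀ t, 0 ≤ Z t ^ (2 * k) := fun t => pow_nonneg (Z_nonneg t) _
  obtain ⟨I0, hI0⟩ : ∃ I0 : ℝ, I0 = ∫ t in (1:ℝ)..3, Z t ^ (2 * k) := ⟨_, rfl⟩
  have hI00 : 0 ≤ I0 := by
    rw [hI0]
    exact intervalIntegral.integral_nonneg (by norm_num) fun t _ => hpos t
  -- the bound from `3`
  have hmain : ∀ T : ℝ, 3 ≤ T → ∫ t in (3:ℝ)..T, Z t ^ (2 * k) ≤ D * max A 0 * T ^ (1 + ε) := by
    intro T hT
    have hT0 : 0 < T := by linarith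
    rw [intervalIntegral.integral_of_le hT]
    have hRHS : 0 ≤ D * max A 0 * T ^ (1 + ε) := by
      have : 0 ≤ max A 0 := le_max_right _ _
      positivity
    rw [← ENNReal.ofReal_le_ofReal_iff hRHS,
      ofReal_integral_eq_lintegral_ofReal hcont.integrableOn_Ioc (Eventually.of_forall hpos)]
    calc ∫⁻ t in Ioc 3 T, ENNReal.ofReal (Z t ^ (2 * k))
        ≤ ∫⁻ t in Ioc 3 T, ENNReal.ofReal (D * T ^ (ε / 2)) *
            ENNReal.ofReal (Real.exp (l * Jw (hd r) t)) := by
          refine setLIntegral_mono' measurableSet_Ioc fun t ht => ?_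
          rw [← ENNReal.ofReal_mul (by positivity)]
          refine ENNReal.ofReal_le_ofReal ?_
          have ht3 : 3 ≤ t := ht.1.le
          have hz := hP t ht3
          rw [← Z_eq] at hz
          have h1 := point (k := k) (Z_nonneg t) hl0.le hδ0.le (by rw [hl]; ring) hC hC1
            (by linarith) hz (hZ1 t (by linarith))
          refine h1.trans ?_
          rw [← hD]
          refine mul_le_mul_of_nonneg_right ?_ (Real.exp_pos _).le
          refine mul_le_mul_of_nonneg_left ?_ hD0.le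
          calc t ^ (r * l + δ) ≤ t ^ (ε / 2) := Real.rpow_le_rpow_of_exponent_le (by linarith) hexp
            _ ≤ T ^ (ε / 2) := Real.rpow_le_rpow (by linarith) ht.2 (by positivity)
      _ = ENNReal.ofReal (D * T ^ (ε / 2)) *
            ∫⁻ t in Ioc 3 T, ENNReal.ofReal (Real.exp (l * Jw (hd r) t)) :=
          lintegral_const_mul' _ _ ENNReal.ofReal_ne_top
      _ ≤ ENNReal.ofReal (D * T ^ (ε / 2)) *
            ∫⁻ t in Icc 2 T, ENNReal.ofReal (Real.exp (l * Jw (hd r) t)) := by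
          gcongr
          intro t ht
          exact ⟨by linarith [ht.1], ht.2⟩
      _ ≤ ENNReal.ofReal (D * T ^ (ε / 2)) * ENNReal.ofReal (max A 0 * T ^ (1 + ε / 2)) := by
          gcongr
          refine (hA T (by linarith)).trans (ENNReal.ofReal_le_ofReal ?_)
          gcongr
          exact le_max_left _ _
      _ = ENNReal.ofReal (D * max A 0 * T ^ (1 + ε)) := by
          rw [← ENNReal.ofReal_mul (by positivity)]
          congr 1
          have e : T ^ (1 + ε) = T ^ (ε / 2) * T ^ (1 + ε / 2) := by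
            rw [← Real.rpow_add hT0]
            congr 1
            ring
          rw [e]
          ring
  refine ⟨I0 + D * max A 0, fun T hT => ?_⟩
  have hT1 : (1:ℝ) ≤ T ^ (1 + ε) := Real.one_le_rpow hT (by linarith)
  have hDA : 0 ≤ D * max A 0 := mul_nonneg hD0.le (le_max_right _ _)
  change ∫ t in (1:ℝ)..T, Z t ^ (2 * k) ≤ _
  have hI1 : I0 ≤ I0 * T ^ (1 + ε) := le_mul_of_one_le_right hI00 hT1
  rcases le_total 3 T with h3 | h3
  · rw [← intervalIntegral.integral_add_adjacent_intervals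
      (hcont.intervalIntegrable 1 3) (hcont.intervalIntegrable 3 T), ← hI0]
    have := hmain T h3
    linarith
  · have h4 : ∫ t in (1:ℝ)..T, Z t ^ (2 * k) ≤ I0 := by
      rw [hI0, ← intervalIntegral.integral_add_adjacent_intervals
        (hcont.intervalIntegrable 1 T) (hcont.intervalIntegrable T 3)]
      have : 0 ≤ ∫ t in T..3, Z t ^ (2 * k) :=
        intervalIntegral.integral_nonneg h3 fun t _ => hpos t
      linarith
    have h5 : 0 ≤ D * max A 0 * T ^ (1 + ε) := by positivity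
    linarith

end Pool.Agent.Y438.GM
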